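import Mathlib
import Pool.Agent.X115.HS.Stm2

set_option autoImplicit false

namespace Pool.Agent.X200.HS.REG

open MeasureTheory Set Filter Topology Real
open Pool.Agent.X115.HS (X S_REG)

theorem t : S_REG := by
  intro n u hu
  set S : Set (X n × ℝ) := {p | 0 ≤ p.2} with hS
  have hSu : UniqueDiffOn ℝ S := by
    have h : S = (univ : Set (X n)) ×ˢ Ici (0 : ℝ) := by
      ext p
      simp [hS]
    rw [h]
    exact uniqueDiffOn_univ.prod (uniqueDiffOn_Ici 0)
  let D1 : X n × ℝ → ℝ := fun p => fderivWithin ℝ u S p ((0 : X n), (1 : ℝ))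
  have hD1 : ContDiffOn ℝ 1 D1 S :=
    (hu.fderivWithin hSu (by norm_num)).clm_apply contDiffOn_const
  let D2 : X n × ℝ → ℝ := fun p => fderivWithin ℝ D1 S p ((0 : X n), (1 : ℝ))
  have hD2 : ContDiffOn ℝ 0 D2 S :=
    (hD1.fderivWithin hSu (by norm_num)).clm_apply contDiffOn_const
  have path : ∀ (x : X n) (s : ℝ), HasDerivWithinAt (fun s : ℝ => (x, s)) ((0 : X n), (1 : ℝ)) (Ici 0) s :=
    fun x s => ((hasDerivAt_const s x).prodMk (hasDerivAt_id s)).hasDerivWithinAt
  have key : ∀ (f : X n × ℝ → ℝ), DifferentiableOn ℝ f S → ∀ (x : X n) (s : ℝ), 0 ≤ s →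
      HasDerivWithinAt (fun s => f (x, s)) (fderivWithin ℝ f S (x, s) ((0 : X n), (1 : ℝ))) (Ici 0) s := by
    intro f hf x s hs
    have h1 : HasFDerivWithinAt f (fderivWithin ℝ f S (x, s)) S (x, s) :=
      (hf (x, s) hs).hasFDerivWithinAt
    exact h1.comp_hasDerivWithinAt s (path x s) fun r hr => hr
  have h1 := key u (hu.differentiableOn (by norm_num))
  have h2 := key D1 (hD1.differentiableOn (by norm_num))
  refine ⟨fun x s => D1 (x, s), fun x s => D2 (x, s), hD1.continuousOn, hD2.continuousOn, h1, h2, ?_, ?_⟩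
  · intro x s hs
    have e1 : ∀ r : ℝ, 0 < r → deriv (fun s => u (x, s)) r = D1 (x, r) := fun r hr =>
      ((h1 x r hr.le).hasDerivAt (Ici_mem_nhds hr)).deriv
    have e2 : deriv (fun s => u (x, s)) =ᶠ[𝓝 s] fun r => D1 (x, r) := by
      filter_upwards [Ioi_mem_nhds hs] with r hr
      exact e1 r hr
    rw [e2.deriv_eq]
    exact ((h2 x s hs.le).hasDerivAt (Ici_mem_nhds hs)).deriv
  · intro s hs
    exact hu.comp_contDiff (contDiff_id.prodMk contDiff_const) fun y => hs

end Pool.Agent.X200.HS.REG
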